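import Pool.Agent.KS6_44.EZ.F

/-!
# MP_be6048_an: thin domains, all degrees `n`, all orders `1 ≤ k < n`, exponents `q` near `1`

For all `1 ≤ k < n` there are `δ > 0` and `q₀ > 1` such that for every domain `G ⊇ [-1,1]` in the
`δ`-neighbourhood of `[-1,1]` and every `q ∈ [1, q₀]`, no polynomial with all zeros on the boundary
of `G` is extremal; it is even a definite amount away from the supremum. For `k = n - 1` extremal
polynomials exist.
-/

set_option autoImplicit false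

namespace Pool.Agent.Results.MP_be6048_an.AllDegrees

open Polynomial Set Metric

/-- The quotient `‖P^(k)‖_q / ‖P‖` for norms on `[-1,1]`. -/
noncomputable def ratio (q : ℝ) (k : ℕ) (P : ℂ[X]) : ℝ :=
  (∫ x in (-1:ℝ)..1, ‖(derivative^[k] P).eval (x:ℂ)‖ ^ q) ^ (1 / q) /
    sSup ((fun x : ℝ => ‖P.eval (x:ℂ)‖) '' Icc (-1) 1)

/-- `P` has degree exactly `n` and no zero in `G`. -/
def Admissible (G : Set ℂ) (n : ℕ) (P : ℂ[X]) : Prop :=
  P.natDegree = n ∧ ∀ z ∈ G, P.eval z ≠ 0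

/-- `P` is extremal for `G`, `n`, `k`, `q`. -/
def Extremal (G : Set ℂ) (n k : ℕ) (q : ℝ) (P : ℂ[X]) : Prop :=
  Admissible G n P ∧ ∀ Q : ℂ[X], Admissible G n Q → ratio q k Q ≤ ratio q k P

open Pool.Agent.KS6_44.EZ

theorem main (n k : ℕ) (hk1 : 1 ≤ k) (hk : k < n) :
    ∃ c δ q₀ : ℝ, 0 < δ ∧ 1 < q₀ ∧ ∀ G : Set ℂ, IsOpen G → (∀ x ∈ Icc (-1:ℝ) 1, (x:ℂ) ∈ G) →
      (∀ z ∈ G, ∃ x ∈ Icc (-1:ℝ) 1, ‖z - x‖ < δ) → ∀ q ∈ Icc 1 q₀,
        (∃ Q, Admissible G n Q ∧ c < ratio q k Q) ∧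
        (∀ P, Admissible G n P → (∀ z, P.eval z = 0 → z ∈ frontier G) → ratio q k P < c) ∧
        (∀ P, Extremal G n k q P → ∃ z, P.eval z = 0 ∧ z ∉ closure G) ∧
        (k + 1 = n → ∃ P, Extremal G n k q P) := by
  obtain ⟨c, δ, q₀, P0, hδ, hq₀, hd, hs, hu, hl⟩ := tube n k hk
  refine ⟨c, δ, q₀, hδ, hq₀, fun G hG hI hT q hq => ?_⟩
  have hrat : ∀ P, ratio q k P = rat q k P := fun P => rfl
  have hP0 : Admissible G n P0 := by
    refine ⟨hd, fun z hz => ?_⟩
    obtain ⟨x, hx, hzx⟩ := hT z hz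
    exact hs z ⟨(x:ℂ), ⟨x, hx, rfl⟩, by rwa [Complex.dist_eq]⟩
  have hne0 : P0 ≠ 0 := by
    rintro rfl
    rw [natDegree_zero] at hd
    omega
  have hA : c < ratio q k P0 := by
    rw [hrat, rat, lt_div_iff₀ (den_pos hne0)]
    exact hu q hq
  have hcl : closure G ⊆ ⋃ x ∈ seg, closedBall x δ := by
    rw [← seg_compact.cthickening_eq_biUnion_closedBall hδ.le]
    refine closure_minimal ?_ isClosed_cthickening
    refine Subset.trans ?_ (thickening_subset_cthickening δ seg)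
    intro z hz
    obtain ⟨x, hx, hzx⟩ := hT z hz
    rw [mem_thickening_iff]
    exact ⟨(x:ℂ), ⟨x, hx, rfl⟩, by rwa [Complex.dist_eq]⟩
  have hB : ∀ P, Admissible G n P → (∀ z, P.eval z = 0 → z ∈ frontier G) → ratio q k P < c := by
    intro P hP hfr
    obtain ⟨a, z, ha, hz, e⟩ := adm_pol (by omega) hP
    rw [hrat, e, rat_smul hq.1 k ha, rat, div_lt_iff₀ (den_pos (pol_one_ne z))]
    refine hl q hq z fun j => ?_
    have h1 := hcl (frontier_subset_closure (hfr _ (hz j).1))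
    simp only [mem_iUnion, mem_closedBall, exists_prop] at h1
    exact h1
  refine ⟨⟨P0, hP0, hA⟩, hB, fun P hP => ?_, fun hkn => ?_⟩
  · by_contra hcon
    push Not at hcon
    have h1 : ∀ z, P.eval z = 0 → z ∈ frontier G := by
      intro z hz
      rw [frontier, hG.interior_eq]
      exact ⟨hcon z hz, fun h => hP.1.2 z h hz⟩
    have h2 := hB P hP.1 h1
    have h3 := hP.2 P0 hP0
    linarith
  · subst hkn
    obtain ⟨t, ht, hnode⟩ := nodes (k + 1)
    have h1 := hl 1 ⟨le_rfl, hq₀.le⟩ (fun j => (t j:ℂ)) fun j =>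
      ⟨(t j:ℂ), ⟨t j, ht j, rfl⟩, by rw [dist_self]; exact hδ.le⟩
    have hmon : (pol fun j => ((1:ℂ), (t j:ℂ))).Monic := by
      unfold pol
      refine monic_prod_of_monic _ _ fun j _ => ?_
      simpa using monic_X_sub_C ((t j:ℂ))
    have hdeg : (pol fun j => ((1:ℂ), (t j:ℂ))).natDegree = k + 1 := by
      rw [pol_real, natDegree_map, natDegree_prod_of_monic _ _ fun j _ => monic_X_sub_C _]
      simp
    have h2 := high k _ hdeg hmon
    have hdp : 0 < den (pol fun j => ((1:ℂ), (t j:ℂ))) := den_pos (pol_one_ne _)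
    have hc0 : 0 < c := by
      have h3 : (0:ℝ) < ((k + 1).factorial : ℝ) := by positivity
      by_contra hneg
      push Not at hneg
      nlinarith
    have hc : (k.factorial : ℝ) * 2 * 2 ^ (k - 1) < c := by
      have h3 : c * den (pol fun j => ((1:ℂ), (t j:ℂ))) ≤ c * (2 ^ (k + 1 - 1))⁻¹ :=
        mul_le_mul_of_nonneg_left hnode hc0.le
      have h4 : ((k + 1).factorial : ℝ) < c * (2 ^ (k + 1 - 1))⁻¹ := by linarith
      rw [← div_eq_mul_inv, lt_div_iff₀ (by positivity), Nat.add_sub_cancel] at h4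
      have h5 : (2:ℝ) ^ k = 2 * 2 ^ (k - 1) := by
        rw [← pow_succ', Nat.sub_add_cancel hk1]
      have h6 : (k.factorial : ℝ) ≤ ((k + 1).factorial : ℝ) := by
        exact_mod_cast Nat.factorial_le (Nat.le_succ k)
      have h7 : (0:ℝ) ≤ 2 ^ k := by positivity
      rw [mul_assoc, ← h5]
      nlinarith [mul_le_mul_of_nonneg_right h6 h7]
    obtain ⟨P, hP, hmax⟩ := exists_ext k hG hq.1 hc (Q0 := P0) hP0 hA
    exact ⟨P, hP, hmax⟩

/-- **Thin domains.** (1) Let `1 ≤ k < n`. There are `c`, `δ > 0` and `q₀ > 1` such that for every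
open `G ⊇ [-1,1]` (in particular every convex domain) all of whose points have distance less than
`δ` from `[-1,1]` and for every `q ∈ [1, q₀]`: the supremum of the extremal problem is larger than
`c`, while all admissible polynomials whose zeros are all on the boundary of `G` have quotient less
than `c`; so every extremal polynomial has a zero outside the closure of `G`. If `k = n - 1`, then
there is an extremal polynomial. (2) So for every `n ≥ 2`, `k = n - 1` there are a bounded convex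
domain `G` and `q₀ > 1` such that for all `q ∈ [1, q₀]` there is an extremal polynomial, and every
extremal polynomial has a zero outside the closure of `G`. -/
theorem result :
    (∀ n k : ℕ, 1 ≤ k → k < n → ∃ c δ q₀ : ℝ, 0 < δ ∧ 1 < q₀ ∧
      ∀ G : Set ℂ, IsOpen G → (∀ x ∈ Icc (-1:ℝ) 1, (x:ℂ) ∈ G) →
      (∀ z ∈ G, ∃ x ∈ Icc (-1:ℝ) 1, ‖z - x‖ < δ) → ∀ q ∈ Icc 1 q₀,
        (∃ Q, Admissible G n Q ∧ c < ratio q k Q) ∧
        (∀ P, Admissible G n P → (∀ z, P.eval z = 0 → z ∈ frontier G) → ratio q k P < c) ∧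
        (∀ P, Extremal G n k q P → ∃ z, P.eval z = 0 ∧ z ∉ closure G) ∧
        (k + 1 = n → ∃ P, Extremal G n k q P)) ∧
    (∀ n : ℕ, 2 ≤ n → ∃ (G : Set ℂ) (q₀ : ℝ), IsOpen G ∧ Convex ℝ G ∧ Bornology.IsBounded G ∧
      (∀ x ∈ Icc (-1:ℝ) 1, (x:ℂ) ∈ G) ∧ 1 < q₀ ∧ ∀ q ∈ Icc 1 q₀,
        (∃ P, Extremal G n (n - 1) q P) ∧
        ∀ P, Extremal G n (n - 1) q P → ∃ z, P.eval z = 0 ∧ z ∉ closure G) := by
  refine ⟨main, fun n hn => ?_⟩
  obtain ⟨c, δ, q₀, hδ, hq₀, h⟩ := main n (n - 1) (by omega) (by omega)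
  have hmem : ∀ x ∈ Icc (-1:ℝ) 1, (x:ℂ) ∈ thickening δ seg := fun x hx =>
    self_subset_thickening hδ seg ⟨x, hx, rfl⟩
  refine ⟨thickening δ seg, q₀, isOpen_thickening, seg_convex.thickening δ,
    seg_compact.isBounded.thickening, hmem, hq₀, fun q hq => ?_⟩
  have h1 := h (thickening δ seg) isOpen_thickening hmem (fun z hz => by
    rw [mem_thickening_iff] at hz
    obtain ⟨_, ⟨x, hx, rfl⟩, hzx⟩ := hz
    exact ⟨x, hx, by rwa [Complex.dist_eq] at hzx⟩) q hq
  exact ⟨h1.2.2.2 (by omega), h1.2.2.1⟩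

end Pool.Agent.Results.MP_be6048_an.AllDegrees
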