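import Pool.Agent.KS6_69.ZB.Base

/-!
# Every extremal polynomial has a zero outside the closed domain

For the convex domain `4 |Im z| + Re z < 101 / 100`, `|z| < 10` (this is that of an earlier run) and
`n = 2`, `k = 1`, `q = 2`, extremal polynomials exist, each of them has a zero outside the closure of the
domain, and polynomials with all zeros on the boundary stay a definite amount below the
supremum.
-/

set_option autoImplicit false

namespace Pool.Agent.Results.MP_be6048_an.ZeroOutsideClosure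

open MeasureTheory Set Polynomial Metric

/-- `P` is a polynomial of degree `n` without zeros in `G`. -/
def Admissible (G : Set ℂ) (n : ℕ) (P : ℂ[X]) : Prop :=
  P.natDegree = n ∧ ∀ z ∈ G, P.eval z ≠ 0

/-- The quotient of the `L_q` norm of the `k`-th derivative and the uniform norm of `P` on `[-1, 1]`. -/
noncomputable def quot (k : ℕ) (q : ENNReal) (P : ℂ[X]) : ENNReal :=
  eLpNorm (fun x : ℝ => ((⇑derivative)^[k] P).eval (x : ℂ)) q
      (volume.restrict (Set.Icc (-1 : ℝ) 1)) /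
    eLpNorm (fun x : ℝ => P.eval (x : ℂ)) ⊤ (volume.restrict (Set.Icc (-1 : ℝ) 1))

/-- `P` is extremal. -/
def IsExtremal (G : Set ℂ) (n k : ℕ) (q : ENNReal) (P : ℂ[X]) : Prop :=
  Admissible G n P ∧ ∀ Q : ℂ[X], Admissible G n Q → quot k q Q ≤ quot k q P

open Pool.Agent.KS6_69.ZB

lemma adm (l a b : ℂ) (hl : l ≠ 0) (ha : a ∉ G) (hb : b ∉ G) :
    Admissible G 2 (C l * ((X - C a) * (X - C b))) := by
  refine ⟨?_, fun z hz h => ?_⟩
  · rw [natDegree_C_mul hl, natDegree_mul (X_sub_C_ne_zero a) (X_sub_C_ne_zero b)]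
    simp
  · simp only [eval_mul, eval_sub, eval_X, eval_C, mul_eq_zero, sub_eq_zero] at h
    rcases h with h | rfl | rfl
    exacts [hl h, ha hz, hb hz]

lemma fac' (Q : ℂ[X]) (h : Admissible G 2 Q) :
    ∃ l a b : ℂ, l ≠ 0 ∧ a ∉ G ∧ b ∉ G ∧ Q = C l * ((X - C a) * (X - C b)) ∧
      quot 1 2 Q = ENNReal.ofReal √(N a b / D a b ^ 2) := by
  obtain ⟨l, a, b, hl, rfl⟩ := fac Q h.1
  have ha : a ∉ G := fun h' => h.2 a h' (by simp)
  have hb : b ∉ G := fun h' => h.2 b h' (by simp)
  exact ⟨l, a, b, hl, ha, hb, rfl, ratio l a b hl ha hb⟩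

/-- If both zeros are on the boundary then the quotient is at most `√5.68`. -/
lemma bdry (a b : ℂ) (ha : a ∈ frontier G) (hb : b ∈ frontier G) :
    N a b ≤ 568/100 * D a b ^ 2 := by
  rcases G_fr hb with e2 | e2
  · rcases G_fr ha with e1 | e1
    · exact line a b e1 e2
    · have := far b a e1
      rwa [N_comm, D_comm] at this
  · exact far a b e2

/-- There are a bounded convex domain `G` containing `[-1, 1]`, symmetric about the real axis, and a
number `c` such that for `n = 2`, `k = 1`, `q = 2` extremal polynomials exist, every extremal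
polynomial has a zero outside the closure of `G`, and the quotient of norms is at most `c` for each
admissible polynomial with all zeros on the boundary, and greater than `c` for extremal polynomials. -/
theorem result : ∃ G : Set ℂ, IsOpen G ∧ Convex ℝ G ∧ Bornology.IsBounded G ∧
    (∀ x : ℝ, x ∈ Set.Icc (-1 : ℝ) 1 → (x : ℂ) ∈ G) ∧
    (∀ z ∈ G, (starRingEnd ℂ) z ∈ G) ∧
    (∃ P, IsExtremal G 2 1 2 P) ∧
    (∀ P, IsExtremal G 2 1 2 P → ∃ z, P.eval z = 0 ∧ z ∉ closure G) ∧
    ∃ c : ENNReal, (∀ Q, Admissible G 2 Q → (∀ z, Q.eval z = 0 → z ∈ frontier G) →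
        quot 1 2 Q ≤ c) ∧
      ∀ P, IsExtremal G 2 1 2 P → c < quot 1 2 P := by
  obtain ⟨a, ha, b, hb, h1, h2⟩ := Pool.Agent.KS6_69.ZB.ext
  have hP : IsExtremal G 2 1 2 (C 1 * ((X - C a) * (X - C b))) := by
    refine ⟨adm 1 a b one_ne_zero ha hb, fun Q hQ => ?_⟩
    obtain ⟨l, a', b', hl, ha', hb', -, e⟩ := fac' Q hQ
    rw [e, quot, ratio 1 a b one_ne_zero ha hb]
    exact ENNReal.ofReal_le_ofReal (Real.sqrt_le_sqrt (h2 a' ha' b' hb'))
  have hbig : ∀ P, IsExtremal G 2 1 2 P → ENNReal.ofReal √(568/100) < quot 1 2 P := by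
    intro P hP'
    refine lt_of_lt_of_le ?_ (hP'.2 _ hP.1)
    rw [quot, ratio 1 a b one_ne_zero ha hb]
    have h3 : (568 : ℝ)/100 < N a b / D a b ^ 2 := by
      rw [lt_div_iff₀ (pow_pos (D_pos ha hb) 2)]
      exact h1
    exact (ENNReal.ofReal_lt_ofReal_iff (Real.sqrt_pos.2 (by linarith))).2
      (Real.sqrt_lt_sqrt (by norm_num) h3)
  have hsmall : ∀ Q, Admissible G 2 Q → (∀ z, Q.eval z = 0 → z ∈ frontier G) →
      quot 1 2 Q ≤ ENNReal.ofReal √(568/100) := by
    intro Q hQ h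
    obtain ⟨l, a', b', hl, ha', hb', rfl, e⟩ := fac' Q hQ
    rw [e]
    refine ENNReal.ofReal_le_ofReal (Real.sqrt_le_sqrt ?_)
    rw [div_le_iff₀ (pow_pos (D_pos ha' hb') 2)]
    exact bdry a' b' (h a' (by simp)) (h b' (by simp))
  refine ⟨G, G_open, G_conv, Metric.isBounded_ball.subset Set.inter_subset_right, G_seg, ?_,
    ⟨_, hP⟩, fun P hP' => ?_, _, hsmall, hbig⟩
  · rintro z ⟨h3, h4⟩
    refine ⟨?_, ?_⟩
    · simpa using h3
    · rw [mem_ball_zero_iff] at h4 ⊢
      simpa using h4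
  · by_contra hc
    push Not at hc
    refine absurd (hsmall P hP'.1 fun z hz => ?_) (not_le.2 (hbig P hP'))
    rw [G_open.frontier_eq]
    exact ⟨hc z hz, fun h => hP'.1.2 z h hz⟩

end Pool.Agent.Results.MP_be6048_an.ZeroOutsideClosure
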